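import Pool.Agent.Helper6.CS.Goals2

/-!
# Packet CS-VWI: instances of variable words are variable words
-/

namespace Pool.Agent.Helper92.CS

open Pool.Agent.Helper6.CS

set_option synthInstance.maxSize 1000000000 in
theorem t_VWI : G_OWL → G_VWI := by
  intro hO M _ a n U hU hW v hv
  obtain ⟨o1, o2, o3, o4⟩ := hO M a U hU hW
  obtain ⟨v1, v2, v3⟩ := hv
  have hlen : (inst a U v).len = fo a U v.len := by
    unfold inst
    rw [Wd.len_of]
  have hget : ∀ p, p < fo a U v.len →
      (inst a U v).get p = if U p < a then U p else v.get (U p - a) := by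
    intro p hp
    unfold inst
    rw [Wd.get_of_lt _ _ hp]
  have key : ∀ p, p < fo a U v.len → (U p < a ∧ (inst a U v).get p = U p) ∨
      ∃ m, m < v.len ∧ U p = a + m ∧ (inst a U v).get p = v.get m := by
    intro p hp
    rw [hget p hp]
    by_cases h : U p < a
    · exact Or.inl ⟨h, if_pos h⟩
    · refine Or.inr ?_
      obtain ⟨m, hm⟩ := World.exists_add a (U p) (not_lt.1 h)
      refine ⟨m, ?_, hm, ?_⟩
      · have h1 := o2 v.len p hp
        rw [hm] at h1
        exact lt_of_add_lt_add_left h1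
      · rw [if_neg h, hm, add_tsub_cancel_left]
  have hat : ∀ m, m < v.len → fo a U m < fo a U v.len ∧
      (inst a U v).get (fo a U m) = v.get m := by
    intro m hm
    have h1 := o3 m v.len hm
    refine ⟨h1, ?_⟩
    rw [hget _ h1, o1 m, if_neg (not_lt.2 (le_add_of_nonneg_right (World.zero_le' m))),
      add_tsub_cancel_left]
  refine ⟨?_, ?_, ?_⟩
  · intro p hp
    rw [hlen] at hp
    rcases key p hp with ⟨h1, h2⟩ | ⟨m, hm, -, h2⟩
    · rw [h2]
      exact lt_of_lt_of_le h1 (le_add_of_nonneg_right (World.zero_le' n))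
    · rw [h2]
      exact v1 m hm
  · intro i hi
    obtain ⟨m, hm, hm2⟩ := v2 i hi
    obtain ⟨h1, h2⟩ := hat m hm
    exact ⟨fo a U m, by rw [hlen]; exact h1, by rw [h2, hm2]⟩
  · intro i p hp hp2
    rw [hlen] at hp
    rcases key p hp with ⟨h1, h2⟩ | ⟨m, hm, hUm, h2⟩
    · rw [hp2] at h2
      rw [← h2] at h1
      exact absurd h1 (not_lt.2 (le_add_of_nonneg_right (World.zero_le' _)))
    · rw [hp2] at h2
      obtain ⟨m', hm', hv'⟩ := v3 i m hm h2.symm
      obtain ⟨h3, h4⟩ := hat m' (hm'.trans hm)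
      refine ⟨fo a U m', ?_, by rw [h4, hv']⟩
      exact lt_of_lt_of_le (o3 m' m hm') (o4 m p hUm)

end Pool.Agent.Helper92.CS
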